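import Mathlib
import Pool.Agent.H88.US3

open MeasureTheory Pool.Agent.H88.US

theorem Pool.Agent.Results.MP_973dba_an.Counter.result :
    (∃ (X : Type) (_ : NormedAddCommGroup X) (_ : NormedSpace ℝ X) (_ : CompleteSpace X),
      Nonempty (X ≃ₗᵢ[ℝ] Lp ℝ 1 (volume.restrict (Set.Icc (0:ℝ) 1))) ∧
      UniformS X ∧ Umod (StrongDual ℝ (StrongDual ℝ X)) 1 (1 / 4) = 0) ∧
    ¬ ∀ (X : Type) [NormedAddCommGroup X] [NormedSpace ℝ X] [CompleteSpace X],
      UniformS X → UniformS (StrongDual ℝ (StrongDual ℝ X)) := by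
  refine ⟨⟨Lp ℝ 1 m01, inferInstance, inferInstance, inferInstance,
    ⟨LinearIsometryEquiv.refl ℝ _⟩, uniformS_L1, bidual_L1⟩, fun h => ?_⟩
  have := h _ uniformS_L1 1 one_pos one_lt_two (1 / 4) (by norm_num)
  exact this.ne' bidual_L1
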